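import Pool.Agent.H.MP_54b62b_gt.B

namespace Pool.Agent.Results.MP_54b62b_gt.No

open Pool.Agent.H.MP_54b62b_gt

theorem result : ∃ (G : Type) (_ : AddCommGroup G) (_ : TopologicalSpace G),
    IsTopologicalAddGroup G ∧ T2Space G ∧ LocMin G ∧ SeqComplete G ∧
    (∀ H : AddSubgroup G, IsClosed (H : Set G) → ZeroDim H → Finite H) ∧ ¬ LocEucl G :=
  ⟨GG, inferInstance, inferInstance, inferInstance, inferInstance, locMin, seqComplete,
    zeroDim_finite, not_locEucl⟩

end Pool.Agent.Results.MP_54b62b_gt.No
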